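import Pool.Agent.NCub.Stmts

set_option autoImplicit false

/-!
# Squad NC, row FLX: three flexes of a real cubic are collinear
-/

namespace Pool.Agent.NCub.H27

open Pool.Agent.OM

theorem span_of_ind {a b d : V} (h : Ind a b d) (v : V) :
    ∃ x y z : ℝ, v = x • a + y • b + z • d := by
  have hli : LinearIndependent ℝ ![a, b, d] := by
    rw [Fintype.linearIndependent_iff]
    intro g hg
    rw [Fin.sum_univ_three] at hg
    obtain ⟨h0, h1, h2⟩ := h (g 0) (g 1) (g 2) hg
    intro i
    fin_cases i
    · exact h0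
    · exact h1
    · exact h2
  have hfr : Module.finrank ℝ V = 3 := by
    show Module.finrank ℝ (ℝ × ℝ × ℝ) = 3
    rw [Module.finrank_prod, Module.finrank_prod, Module.finrank_self]
  have hcard : Fintype.card (Fin 3) = Module.finrank ℝ V := by
    rw [hfr, Fintype.card_fin]
  have hsp := hli.span_eq_top_of_card_eq_finrank hcard
  have hv : v ∈ Submodule.span ℝ (Set.range ![a, b, d]) := by
    rw [hsp]
    exact Submodule.mem_top
  obtain ⟨g, hg⟩ := (Submodule.mem_span_range_iff_exists_fun ℝ).1 hv
  rw [Fin.sum_univ_three] at hg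
  exact ⟨g 0, g 1, g 2, hg.symm⟩

/-- the algebra -/
theorem flex_alg {α β γ δ ε ζ η : ℝ} (hα : α ≠ 0) (hγ : γ ≠ 0)
    (h1 : γ * β ^ 2 + ε * α ^ 2 = η * α * β) (h2 : α * δ ^ 2 + ζ * γ ^ 2 = η * γ * δ)
    (h3 : β * ζ ^ 2 + δ * ε ^ 2 = η * ε * ζ) :
    (β = 0 ∧ ε = 0) ∨ (δ = 0 ∧ ζ = 0) ∨
      (γ * ε - α * ζ = 0 ∧ γ ^ 2 * β - α * γ * η + α ^ 2 * δ = 0) ∨ (ε = 0 ∧ ζ = 0) := by
  obtain ⟨B, hB⟩ : ∃ B, β = B * α ^ 2 := ⟨β / α ^ 2, by field_simp⟩
  obtain ⟨D, hD⟩ : ∃ D, δ = D * γ ^ 2 := ⟨δ / γ ^ 2, by field_simp⟩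
  obtain ⟨H, hH⟩ : ∃ H, η = H * (α * γ) := ⟨η / (α * γ), by field_simp⟩
  subst hB hD hH
  have hε : ε = α ^ 2 * γ * (B * (H - B)) := by
    have : α ^ 2 * (ε - α ^ 2 * γ * (B * (H - B))) = 0 := by linear_combination h1
    rcases mul_eq_zero.1 this with h | h
    · exact absurd h (pow_ne_zero 2 hα)
    · linarith
  have hζ : ζ = α * γ ^ 2 * (D * (H - D)) := by
    have : γ ^ 2 * (ζ - α * γ ^ 2 * (D * (H - D))) = 0 := by linear_combination h2
    rcases mul_eq_zero.1 this with h | h
    · exact absurd h (pow_ne_zero 2 hγ)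
    · linarith
  subst hε hζ
  have key : B * D * ((H - B - D) * (H ^ 2 - (B + D) * H + B ^ 2 - B * D + D ^ 2)) = 0 := by
    have : α ^ 4 * γ ^ 4 *
        (B * D * ((H - B - D) * (H ^ 2 - (B + D) * H + B ^ 2 - B * D + D ^ 2))) = 0 := by
      linear_combination (-1) * h3
    rcases mul_eq_zero.1 this with h | h
    · exact absurd h (mul_ne_zero (pow_ne_zero 4 hα) (pow_ne_zero 4 hγ))
    · exact h
  rcases mul_eq_zero.1 key with h | h
  · rcases mul_eq_zero.1 h with h | h
    · left
      rw [h]
      constructor <;> ring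
    · right; left
      rw [h]
      constructor <;> ring
  · right; right
    rcases mul_eq_zero.1 h with h | h
    · left
      have hH : H = B + D := by linarith
      rw [hH]
      constructor <;> ring
    · right
      have h4 : (2 * H - B - D) ^ 2 + 3 * (B - D) ^ 2 = 0 := by linear_combination 4 * h
      have h5 : B - D = 0 := by
        have := sq_nonneg (2 * H - B - D)
        have h6 := sq_nonneg (B - D)
        have h7 : (B - D) ^ 2 = 0 := by linarith
        exact pow_eq_zero_iff (two_ne_zero) |>.1 h7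
      have h6 : 2 * H - B - D = 0 := by
        rw [h5] at h4
        have h7 : (2 * H - B - D) ^ 2 = 0 := by linarith
        exact pow_eq_zero_iff (two_ne_zero) |>.1 h7
      have h7 : H = B := by linarith
      have h8 : D = B := by linarith
      rw [h7, h8]
      constructor <;> ring

theorem flx : FLXStmt := by
  intro c a b d hind ha hb hd hsm fa fb fd hthird
  obtain ⟨p, ⟨s, t, hs, ht, rfl⟩, hp⟩ := hthird
  have hGa := ha.1
  have hGb := hb.1
  have hGd := hd.1
  -- `α` and `γ` are not zero
  have hp' : s * T c a a b + t * T c a b b = 0 := by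
    rw [G_line, hGa, hGb] at hp
    have : 3 * (s * t) * (s * T c a a b + t * T c a b b) = 0 := by linear_combination hp
    rcases mul_eq_zero.1 this with h | h
    · exact absurd h (mul_ne_zero three_ne_zero (mul_ne_zero hs ht))
    · exact h
  have hnab : ¬ (T c a a b = 0 ∧ T c a b b = 0) := by
    rintro ⟨h1, h2⟩
    obtain ⟨k, hk⟩ := ha.2 b h1 h2 hGb
    have := (hind k (-1) 0 (by rw [hk]; module)).2.1
    norm_num at this
  have hα : T c a a b ≠ 0 := by
    intro h
    apply hnab
    refine ⟨h, ?_⟩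
    rw [h, mul_zero, zero_add] at hp'
    exact (mul_eq_zero.1 hp').resolve_left ht
  have hγ : T c a b b ≠ 0 := by
    intro h
    rw [h, mul_zero, add_zero] at hp'
    exact hα ((mul_eq_zero.1 hp').resolve_left hs)
  -- symmetries
  have sba : T c b b a = T c a b b := by rw [T_swap23 c b b a, T_swap12 c b a b]
  have sda : T c d d a = T c a d d := by rw [T_swap23 c d d a, T_swap12 c d a d]
  have sdb : T c d d b = T c b d d := by rw [T_swap23 c d d b, T_swap12 c d b d]
  -- the three flex equations
  have e1 : T c a b b * T c a a d ^ 2 + T c a d d * T c a a b ^ 2 =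
      2 * T c a b d * T c a a b * T c a a d := by
    have h1 : T c a a (T c a a d • b + (-T c a a b) • d) = 0 := by
      rw [T_add_right, T_smul_right, T_smul_right]
      ring
    have h2 := fa _ h1
    rw [T_add_right, T_smul_right, T_smul_right, T_add_mid, T_smul_mid, T_smul_mid, T_add_mid,
      T_smul_mid, T_smul_mid, T_swap23 c a d b] at h2
    linear_combination h2
  have e2 : T c a a b * T c b b d ^ 2 + T c b d d * T c a b b ^ 2 =
      2 * T c a b d * T c a b b * T c b b d := by
    have h1 : T c b b (T c b b d • a + (-T c a b b) • d) = 0 := by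
      rw [T_add_right, T_smul_right, T_smul_right, sba]
      ring
    have h2 := fb _ h1
    rw [T_add_right, T_smul_right, T_smul_right, T_add_mid, T_smul_mid, T_smul_mid, T_add_mid,
      T_smul_mid, T_smul_mid, T_swap12 c b a a, T_swap23 c a b a, T_swap12 c b a d,
      T_swap23 c b d a, T_swap12 c b a d] at h2
    linear_combination h2
  have e3 : T c a a d * T c b d d ^ 2 + T c b b d * T c a d d ^ 2 =
      2 * T c a b d * T c a d d * T c b d d := by
    have h1 : T c d d (T c b d d • a + (-T c a d d) • b) = 0 := by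
      rw [T_add_right, T_smul_right, T_smul_right, sda, sdb]
      ring
    have h2 := fd _ h1
    rw [T_add_right, T_smul_right, T_smul_right, T_add_mid, T_smul_mid, T_smul_mid, T_add_mid,
      T_smul_mid, T_smul_mid, T_swap12 c d a a, T_swap23 c a d a, T_swap12 c d b b,
      T_swap23 c b d b, T_swap12 c d a b, T_swap23 c a d b, T_swap23 c d b a,
      T_swap12 c d a b, T_swap23 c a d b] at h2
    linear_combination h2
  have key := flex_alg (α := T c a a b) (β := T c a a d) (γ := T c a b b) (δ := T c b b d)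
    (ε := T c a d d) (ζ := T c b d d) (η := 2 * T c a b d) hα hγ e1 e2 e3
  rcases key with ⟨h1, h2⟩ | ⟨h1, h2⟩ | ⟨h1, h2⟩ | ⟨h1, h2⟩
  · obtain ⟨k, hk⟩ := ha.2 d h1 h2 hGd
    have := (hind k 0 (-1) (by rw [hk]; module)).2.2
    norm_num at this
  · obtain ⟨k, hk⟩ := hb.2 d h1 h2 hGd
    have := (hind 0 k (-1) (by rw [hk]; module)).2.2
    norm_num at this
  · obtain ⟨k, hk⟩ := hd.2 (T c a b b • a + (-T c a a b) • b) (by
      rw [T_add_right, T_smul_right, T_smul_right, sda, sdb]
      linear_combination h1) (by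
      rw [T_add_right, T_smul_right, T_smul_right, T_add_mid, T_smul_mid, T_smul_mid, T_add_mid,
        T_smul_mid, T_smul_mid, T_swap12 c d a a, T_swap23 c a d a, T_swap12 c d b b,
        T_swap23 c b d b, T_swap12 c d a b, T_swap23 c a d b, T_swap23 c d b a,
        T_swap12 c d a b, T_swap23 c a d b]
      linear_combination h2) (by
      rw [G_line, hGa, hGb]
      ring)
    have := (hind (T c a b b) (-T c a a b) (-k) (by rw [hk]; module)).1
    exact hγ this
  · obtain ⟨v, hv⟩ := hsm
    apply hv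
    obtain ⟨x, y, z, rfl⟩ := span_of_ind hind v
    rw [T_add_right, T_add_right, T_smul_right, T_smul_right, T_smul_right, sda, sdb, h1, h2]
    have : T c d d d = 0 := hGd
    rw [this]
    ring

end Pool.Agent.NCub.H27
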